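import Pool.Agent.SG57.Tools

/-!
# The crossing form modulo two

A bilinear form on chains of edges, defined for all pairs of edges; it is `0` on disjoint edges
and `1` on edges which cross (end points off the other edge). Closed chains are orthogonal, and
the sum over the independent pairs of arcs of a drawing of `K_{3,3}` is `1`; both are formal.
-/

set_option autoImplicit false

namespace Pool.Agent.SG57

/-- the crossing form of the edges `PQ` and `RS` -/
def crf (u : Pt → Pt → Pt → ZMod 2) (l : Pt → Pt → ZMod 2) (P Q R S : Pt) : ZMod 2 :=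
  u P R S + u Q R S + (u R P Q + u S P Q) + (l P R + l Q R + (l P S + l Q S))

/-- a crossing form for the vertices in `V` -/
structure CrossForm (V : Set Pt) where
  u : Pt → Pt → Pt → ZMod 2
  l : Pt → Pt → ZMod 2
  symm : ∀ X P Q, u X P Q = u X Q P
  self : ∀ X P, u X P P = 0
  swap : ∀ P ∈ V, ∀ Q ∈ V, P ≠ Q → l P Q + l Q P = 1
  disj : ∀ P ∈ V, ∀ Q ∈ V, ∀ R ∈ V, ∀ S ∈ V, Disjoint (segment ℝ P Q) (segment ℝ R S) →
    crf u l P Q R S = 0
  cross : ∀ P ∈ V, ∀ Q ∈ V, ∀ R ∈ V, ∀ S ∈ V, P ∉ segment ℝ R S → Q ∉ segment ℝ R S →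
    R ∉ segment ℝ P Q → S ∉ segment ℝ P Q → ¬ Disjoint (segment ℝ P Q) (segment ℝ R S) →
    crf u l P Q R S = 1

theorem exists_crossForm {V : Set Pt} (hV : V.Finite) : Nonempty (CrossForm V) := by
  classical
  obtain ⟨t, ht⟩ := exists_gen hV
  have hinj := shr_inj t
  have hmem : ∀ {P : Pt}, P ∈ V → shr t P ∈ shr t '' V := fun h => ⟨_, h, rfl⟩
  have hseg : ∀ {X P Q : Pt}, shr t X ∈ segment ℝ (shr t P) (shr t Q) ↔ X ∈ segment ℝ P Q := by
    intro X P Q
    rw [← shr_seg]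
    exact hinj.mem_set_image
  -- the value of the form on clean pairs
  have key : ∀ P ∈ V, ∀ Q ∈ V, ∀ R ∈ V, ∀ S ∈ V, P ∉ segment ℝ R S → Q ∉ segment ℝ R S →
      R ∉ segment ℝ P Q → S ∉ segment ℝ P Q →
      crf (fun X A B => up (shr t X) (shr t A) (shr t B)) (fun A X => lt1 (shr t A) (shr t X))
        P Q R S = if Disjoint (segment ℝ P Q) (segment ℝ R S) then 0 else 1 := by
    intro P hP Q hQ R hR S hS h1 h2 h3 h4
    have ne : ∀ {A B C D : Pt}, A ∈ V → B ∈ V → A ∉ segment ℝ C D →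
        (B = C ∨ B = D) → (shr t A).1 ≠ (shr t B).1 := by
      intro A B C D hA hB hn hBC he
      have := hinj (ht _ (hmem hA) _ (hmem hB) he)
      subst this
      rcases hBC with rfl | rfl
      · exact hn (left_mem_segment ℝ _ _)
      · exact hn (right_mem_segment ℝ _ _)
    have e1 := four (P := shr t P) (Q := shr t Q) (R := shr t R) (S := shr t S)
      (ht _ (hmem hP) _ (hmem hQ)) (ht _ (hmem hR) _ (hmem hS))
      (ne hP hR h1 (Or.inl rfl)) (ne hP hS h1 (Or.inr rfl))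
      (ne hQ hR h2 (Or.inl rfl)) (ne hQ hS h2 (Or.inr rfl))
      (fun h => h1 (hseg.1 h)) (fun h => h2 (hseg.1 h)) (fun h => h3 (hseg.1 h))
      (fun h => h4 (hseg.1 h))
    have e2 := updn1 (P := shr t P) (Q := shr t Q) (X := shr t R)
      (ht _ (hmem hP) _ (hmem hQ)) (ne hR hP h3 (Or.inl rfl)) (ne hR hQ h3 (Or.inr rfl))
      (fun h => h3 (hseg.1 h))
    have e3 := updn1 (P := shr t P) (Q := shr t Q) (X := shr t S)
      (ht _ (hmem hP) _ (hmem hQ)) (ne hS hP h4 (Or.inl rfl)) (ne hS hQ h4 (Or.inr rfl))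
      (fun h => h4 (hseg.1 h))
    have e4 : (∃ X, X ∈ segment ℝ (shr t P) (shr t Q) ∧ X ∈ segment ℝ (shr t R) (shr t S)) ↔
        ¬ Disjoint (segment ℝ P Q) (segment ℝ R S) := by
      rw [Set.not_disjoint_iff]
      constructor
      · rintro ⟨X, hX1, hX2⟩
        rw [← shr_seg] at hX1
        obtain ⟨Y, hY, rfl⟩ := hX1
        exact ⟨Y, hY, hseg.1 hX2⟩
      · rintro ⟨Y, hY1, hY2⟩
        exact ⟨shr t Y, hseg.2 hY1, hseg.2 hY2⟩
    rw [if_congr e4 rfl rfl] at e1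
    have e5 : (if ¬ Disjoint (segment ℝ P Q) (segment ℝ R S) then (1 : ZMod 2) else 0) =
        if Disjoint (segment ℝ P Q) (segment ℝ R S) then 0 else 1 := by
      by_cases h : Disjoint (segment ℝ P Q) (segment ℝ R S) <;> simp [h]
    rw [e5] at e1
    rw [← e1]
    unfold crf
    linear_combination -e2 - e3 + (up (shr t R) (shr t P) (shr t Q) +
      up (shr t S) (shr t P) (shr t Q)) * two_zero
  refine ⟨⟨fun X A B => up (shr t X) (shr t A) (shr t B), fun A X => lt1 (shr t A) (shr t X),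
    fun X P Q => up_comm _ _ _, fun X P => up_self _ _, ?_, ?_, ?_⟩⟩
  · intro P hP Q hQ hPQ
    exact lt1_swap fun h => hPQ (hinj (ht _ (hmem hP) _ (hmem hQ) h))
  · intro P hP Q hQ R hR S hS h
    have h0 : ∀ X, X ∈ segment ℝ P Q → X ∉ segment ℝ R S := fun X hX => Set.disjoint_left.1 h hX
    rw [key P hP Q hQ R hR S hS (h0 _ (left_mem_segment ℝ _ _)) (h0 _ (right_mem_segment ℝ _ _))
      (fun hh => h0 _ hh (left_mem_segment ℝ _ _)) (fun hh => h0 _ hh (right_mem_segment ℝ _ _)),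
      if_pos h]
  · intro P hP Q hQ R hR S hS h1 h2 h3 h4 h
    rw [key P hP Q hQ R hR S hS h1 h2 h3 h4, if_neg h]

/-! ### chains -/

/-- the boundary of the chain `c` of edges is `P + Q` modulo two -/
def Bd (c : List (Pt × Pt)) (P Q : Pt) : Prop :=
  ∀ φ : Pt → ZMod 2, (c.map fun e => φ e.1 + φ e.2).sum = φ P + φ Q

/-- closed chains -/
def Cl (c : List (Pt × Pt)) : Prop := ∀ φ : Pt → ZMod 2, (c.map fun e => φ e.1 + φ e.2).sum = 0

theorem Bd.single (P Q : Pt) : Bd [(P, Q)] P Q := fun φ => by simp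

theorem Bd.nil (P : Pt) : Bd [] P P := fun φ => by simp [add_self2]

theorem Bd.append {c d : List (Pt × Pt)} {P Q R : Pt} (h : Bd c P Q) (h' : Bd d Q R) :
    Bd (c ++ d) P R := fun φ => by
  rw [List.map_append, List.sum_append, h φ, h' φ]
  linear_combination φ Q * two_zero

theorem Bd.symm {c : List (Pt × Pt)} {P Q : Pt} (h : Bd c P Q) : Bd c Q P := fun φ => by
  rw [h φ, add_comm]

theorem Bd.close {c d : List (Pt × Pt)} {P Q : Pt} (h : Bd c P Q) (h' : Bd d P Q) :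
    Cl (c ++ d) := fun φ => by
  rw [List.map_append, List.sum_append, h φ, h' φ, add_self2]

theorem Bd.cl {c : List (Pt × Pt)} {P : Pt} (h : Bd c P P) : Cl c := fun φ => by
  rw [h φ, add_self2]

theorem Cl.bd {c : List (Pt × Pt)} (h : Cl c) (P : Pt) : Bd c P P := fun φ => by
  rw [h φ, add_self2]

/-- the edges of the pair `z` meet -/
def Meets (z : (Pt × Pt) × (Pt × Pt)) : Prop :=
  ¬ Disjoint (segment ℝ z.1.1 z.1.2) (segment ℝ z.2.1 z.2.2)

/-- no end point of one edge is on the other edge -/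
structure Clean (e f : Pt × Pt) : Prop where
  a : e.1 ∉ segment ℝ f.1 f.2
  b : e.2 ∉ segment ℝ f.1 f.2
  c : f.1 ∉ segment ℝ e.1 e.2
  d : f.2 ∉ segment ℝ e.1 e.2

namespace CrossForm

variable {V : Set Pt} (C : CrossForm V)

/-- the form of an edge and a chain -/
def ce (e : Pt × Pt) (d : List (Pt × Pt)) : ZMod 2 :=
  (d.map fun f => crf C.u C.l e.1 e.2 f.1 f.2).sum

/-- the form of two chains -/
def cc (c d : List (Pt × Pt)) : ZMod 2 := (c.map fun e => C.ce e d).sum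

/-- the first part for a chain -/
def ul (X : Pt) (d : List (Pt × Pt)) : ZMod 2 := (d.map fun f => C.u X f.1 f.2).sum

theorem cc_nil_left (d : List (Pt × Pt)) : C.cc [] d = 0 := rfl

theorem cc_cons_left (e : Pt × Pt) (c d : List (Pt × Pt)) :
    C.cc (e :: c) d = C.ce e d + C.cc c d := by
  simp [cc]

theorem cc_append_left (c c' d : List (Pt × Pt)) : C.cc (c ++ c') d = C.cc c d + C.cc c' d := by
  simp [cc]

theorem ce_append (e : Pt × Pt) (d d' : List (Pt × Pt)) :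
    C.ce e (d ++ d') = C.ce e d + C.ce e d' := by
  simp [ce]

theorem cc_append_right (c d d' : List (Pt × Pt)) : C.cc c (d ++ d') = C.cc c d + C.cc c d' := by
  induction c with
  | nil => rfl
  | cons e c ih =>
    rw [cc_cons_left, cc_cons_left, cc_cons_left, ih, ce_append]
    ring

/-- the value of the form from the boundaries -/
theorem ce_eq {d : List (Pt × Pt)} {R S : Pt} (hd : Bd d R S) (e : Pt × Pt) :
    C.ce e d = C.ul e.1 d + C.ul e.2 d + (C.u R e.1 e.2 + C.u S e.1 e.2) +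
      (C.l e.1 R + C.l e.2 R + (C.l e.1 S + C.l e.2 S)) := by
  have h1 := hd fun X => C.u X e.1 e.2 + (C.l e.1 X + C.l e.2 X)
  have h2 : C.ce e d = C.ul e.1 d + C.ul e.2 d +
      (d.map fun f => (C.u f.1 e.1 e.2 + (C.l e.1 f.1 + C.l e.2 f.1)) +
        (C.u f.2 e.1 e.2 + (C.l e.1 f.2 + C.l e.2 f.2))).sum := by
    unfold ce ul
    rw [← List.sum_map_add, ← List.sum_map_add]
    refine congrArg List.sum (List.map_congr_left fun f _ => ?_)
    unfold crf
    ring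
  rw [h2, h1]
  ring

theorem cc_eq {c d : List (Pt × Pt)} {P Q R S : Pt} (hc : Bd c P Q) (hd : Bd d R S) :
    C.cc c d = C.ul P d + C.ul Q d + (C.ul R c + C.ul S c) +
      (C.l P R + C.l Q R + (C.l P S + C.l Q S)) := by
  have h1 := hc fun X => C.ul X d + (C.l X R + C.l X S)
  have h2 : C.cc c d = C.ul R c + C.ul S c +
      (c.map fun e => (C.ul e.1 d + (C.l e.1 R + C.l e.1 S)) +
        (C.ul e.2 d + (C.l e.2 R + C.l e.2 S))).sum := by
    unfold cc
    rw [show C.ul R c = (c.map fun e => C.u R e.1 e.2).sum from rfl,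
      show C.ul S c = (c.map fun e => C.u S e.1 e.2).sum from rfl,
      ← List.sum_map_add, ← List.sum_map_add]
    refine congrArg List.sum (List.map_congr_left fun e _ => ?_)
    rw [C.ce_eq hd]
    ring
  rw [h2, h1]
  ring

/-- closed chains are orthogonal -/
theorem cc_closed {c d : List (Pt × Pt)} (hc : Cl c) (hd : Cl d) : C.cc c d = 0 := by
  rw [C.cc_eq (hc.bd (0, 0)) (hd.bd (0, 0))]
  linear_combination (C.ul (0, 0) d + C.ul (0, 0) c + C.l (0, 0) (0, 0) +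
    C.l (0, 0) (0, 0)) * two_zero

/-- edges of two chains with pairwise disjoint edges -/
theorem cc_zero {c d : List (Pt × Pt)} (hc : ∀ e ∈ c, e.1 ∈ V ∧ e.2 ∈ V)
    (hd : ∀ f ∈ d, f.1 ∈ V ∧ f.2 ∈ V)
    (h : ∀ e ∈ c, ∀ f ∈ d, Disjoint (segment ℝ e.1 e.2) (segment ℝ f.1 f.2)) :
    C.cc c d = 0 := by
  unfold cc
  refine List.sum_eq_zero ?_
  intro x hx
  obtain ⟨e, he, rfl⟩ := List.mem_map.1 hx
  unfold ce
  refine List.sum_eq_zero ?_
  intro y hy
  obtain ⟨f, hf, rfl⟩ := List.mem_map.1 hy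
  exact C.disj _ (hc e he).1 _ (hc e he).2 _ (hd f hf).1 _ (hd f hf).2 (h e he f hf)

/-- the sum over the independent pairs of arcs of a drawing of `K_{3,3}` -/
theorem k33_sum {a b : Fin 3 → Pt} (c : Fin 3 → Fin 3 → List (Pt × Pt))
    (hc : ∀ i j, Bd (c i j) (a i) (b j)) (hb : ∀ j, b j ∈ V) (hbn : ∀ j j', j ≠ j' → b j ≠ b j') :
    ((C.cc (c 0 0) (c 1 1) + C.cc (c 0 0) (c 1 2) + C.cc (c 0 1) (c 1 0)) +
      (C.cc (c 0 1) (c 1 2) + C.cc (c 0 2) (c 1 0) + C.cc (c 0 2) (c 1 1))) +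
    ((C.cc (c 0 0) (c 2 1) + C.cc (c 0 0) (c 2 2) + C.cc (c 0 1) (c 2 0)) +
      (C.cc (c 0 1) (c 2 2) + C.cc (c 0 2) (c 2 0) + C.cc (c 0 2) (c 2 1))) +
    ((C.cc (c 1 0) (c 2 1) + C.cc (c 1 0) (c 2 2) + C.cc (c 1 1) (c 2 0)) +
      (C.cc (c 1 1) (c 2 2) + C.cc (c 1 2) (c 2 0) + C.cc (c 1 2) (c 2 1))) = 1 := by
  have s01 := C.swap _ (hb 0) _ (hb 1) (hbn 0 1 (by decide))
  have s02 := C.swap _ (hb 0) _ (hb 2) (hbn 0 2 (by decide))
  have s12 := C.swap _ (hb 1) _ (hb 2) (hbn 1 2 (by decide))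
  have e := fun i j i' j' => C.cc_eq (hc i j) (hc i' j')
  simp only [e]
  linear_combination 3 * s01 + 3 * s02 + 3 * s12 + (C.ul (a 0) (c 1 0) + C.ul (a 0) (c 1 1) +
    C.ul (a 0) (c 1 2) + C.ul (a 1) (c 0 0) + C.ul (a 1) (c 0 1) + C.ul (a 1) (c 0 2) + C.ul (a 0)
    (c 2 0) + C.ul (a 0) (c 2 1) + C.ul (a 0) (c 2 2) + C.ul (a 2) (c 0 0) + C.ul (a 2) (c 0 1) +
    C.ul (a 2) (c 0 2) + C.ul (a 1) (c 2 0) + C.ul (a 1) (c 2 1) + C.ul (a 1) (c 2 2) + C.ul (a 2)
    (c 1 0) + C.ul (a 2) (c 1 1) + C.ul (a 2) (c 1 2) + C.ul (b 0) (c 0 1) + C.ul (b 0) (c 1 1) +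
    C.ul (b 0) (c 2 1) + C.ul (b 0) (c 0 2) + C.ul (b 0) (c 1 2) + C.ul (b 0) (c 2 2) + C.ul (b 1)
    (c 0 0) + C.ul (b 1) (c 1 0) + C.ul (b 1) (c 2 0) + C.ul (b 1) (c 0 2) + C.ul (b 1) (c 1 2) +
    C.ul (b 1) (c 2 2) + C.ul (b 2) (c 0 0) + C.ul (b 2) (c 1 0) + C.ul (b 2) (c 2 0) + C.ul (b 2)
    (c 0 1) + C.ul (b 2) (c 1 1) + C.ul (b 2) (c 2 1) + 3 * C.l (a 0) (a 1) + 3 * C.l (a 0) (a 2) +
    3 * C.l (a 1) (a 2) + 1 * C.l (b 0) (a 1) + 2 * C.l (b 0) (a 2) + 1 * C.l (b 1) (a 1) + 2 * C.l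
    (b 1) (a 2) + 1 * C.l (b 2) (a 1) + 2 * C.l (b 2) (a 2) + 2 * C.l (a 0) (b 0) + 2 * C.l (a 0)
    (b 1) + 2 * C.l (a 0) (b 2) + 1 * C.l (a 1) (b 0) + 1 * C.l (a 1) (b 1) + 1 * C.l (a 1) (b 2) +
    4) * two_zero

/-! ### the number of crossings -/

open Classical in
theorem crf_clean {e f : Pt × Pt} (he : e.1 ∈ V ∧ e.2 ∈ V) (hf : f.1 ∈ V ∧ f.2 ∈ V)
    (h : Clean e f) : crf C.u C.l e.1 e.2 f.1 f.2 = if Meets (e, f) then 1 else 0 := by
  by_cases hm : Meets (e, f)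
  · rw [if_pos hm]
    exact C.cross _ he.1 _ he.2 _ hf.1 _ hf.2 h.a h.b h.c h.d hm
  · rw [if_neg hm]
    exact C.disj _ he.1 _ he.2 _ hf.1 _ hf.2 (not_not.1 hm)

open Classical in
theorem cc_eq_card {c d : List (Pt × Pt)} (hc : ∀ e ∈ c, e.1 ∈ V ∧ e.2 ∈ V)
    (hd : ∀ f ∈ d, f.1 ∈ V ∧ f.2 ∈ V) (h : ∀ e ∈ c, ∀ f ∈ d, Clean e f) :
    C.cc c d = (((c ×ˢ d).filter fun z => Meets z).length : ZMod 2) := by
  have key : ∀ e ∈ c, ∀ d' : List (Pt × Pt), (∀ f ∈ d', f ∈ d) →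
      C.ce e d' = (((d'.map (Prod.mk e)).filter fun z => Meets z).length : ZMod 2) := by
    intro e he d'
    induction d' with
    | nil => intro _; simp [ce]
    | cons f d' ih =>
      intro hd'
      have h1 : C.ce e (f :: d') = crf C.u C.l e.1 e.2 f.1 f.2 + C.ce e d' := by simp [ce]
      have hf := hd' f List.mem_cons_self
      rw [h1, ih (fun x hx => hd' x (List.mem_cons_of_mem _ hx)),
        C.crf_clean (hc e he) (hd f hf) (h e he f hf), List.map_cons, List.filter_cons]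
      by_cases hm : Meets (e, f)
      · simp [hm, add_comm]
      · simp [hm]
  induction c with
  | nil => simp [cc]
  | cons e c ih =>
    rw [cc_cons_left, ih (fun x hx => hc x (List.mem_cons_of_mem _ hx))
      (fun x hx => h x (List.mem_cons_of_mem _ hx))
      (fun x hx => key x (List.mem_cons_of_mem _ hx)),
      key e List.mem_cons_self d (fun _ hf => hf), List.product_cons, List.filter_append,
      List.length_append, Nat.cast_add]

end CrossForm

open Classical in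
/-- two closed polygonal curves (unions of closed polygons) such that no vertex of one is on the
other have an even number of crossings -/
theorem even_meets {c d : List (Pt × Pt)} (hc : Cl c) (hd : Cl d)
    (h : ∀ e ∈ c, ∀ f ∈ d, Clean e f) :
    Even ((c ×ˢ d).filter fun z => Meets z).length := by
  have hfin : {X : Pt | (∃ e ∈ c, X = e.1 ∨ X = e.2) ∨ ∃ e ∈ d, X = e.1 ∨ X = e.2}.Finite := by
    have h1 : ∀ l : List (Pt × Pt), {X : Pt | ∃ e ∈ l, X = e.1 ∨ X = e.2}.Finite := by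
      intro l
      refine ((l.map Prod.fst ++ l.map Prod.snd).finite_toSet).subset ?_
      rintro X ⟨e, he, rfl | rfl⟩
      · exact List.mem_append_left _ (List.mem_map_of_mem he)
      · exact List.mem_append_right _ (List.mem_map_of_mem he)
    exact (h1 c).union (h1 d)
  obtain ⟨C⟩ := exists_crossForm hfin
  rw [← ZMod.natCast_eq_zero_iff_even,
    ← C.cc_eq_card (fun e he => ⟨Or.inl ⟨e, he, Or.inl rfl⟩, Or.inl ⟨e, he, Or.inr rfl⟩⟩)
      (fun e he => ⟨Or.inr ⟨e, he, Or.inl rfl⟩, Or.inr ⟨e, he, Or.inr rfl⟩⟩) h]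
  exact C.cc_closed hc hd

end Pool.Agent.SG57
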