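import Mathlib

/-!
# Parity of crossings of polygonal paths in the plane

Two tools: two closed polygonal curves do not cross exactly once, and there is no drawing of
`K_{3,3}` with polygonal edges in which independent edges are disjoint.
-/

set_option autoImplicit false

namespace Pool.Agent.SG57

/-- points of the plane -/
abbrev Pt : Type := ℝ × ℝ

/-- the height of the line `PQ` over the abscissa `x` -/
noncomputable def ht (P Q : Pt) (x : ℝ) : ℝ := P.2 + (x - P.1) * ((Q.2 - P.2) / (Q.1 - P.1))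

theorem ht_left (P Q : Pt) : ht P Q P.1 = P.2 := by
  unfold ht
  ring

theorem ht_right {P Q : Pt} (h : P.1 < Q.1) : ht P Q Q.1 = Q.2 := by
  unfold ht
  have : Q.1 - P.1 ≠ 0 := sub_ne_zero.2 h.ne'
  field_simp
  ring

theorem mem_seg {P Q : Pt} (h : P.1 < Q.1) (X : Pt) :
    X ∈ segment ℝ P Q ↔ P.1 ≤ X.1 ∧ X.1 ≤ Q.1 ∧ X.2 = ht P Q X.1 := by
  have hd : Q.1 - P.1 ≠ 0 := sub_ne_zero.2 h.ne'
  rw [segment_eq_image_lineMap]
  constructor
  · rintro ⟨t, ⟨h0, h1⟩, rfl⟩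
    have e1 : (AffineMap.lineMap P Q t : Pt).1 = P.1 + t * (Q.1 - P.1) := by
      simp [AffineMap.lineMap_apply]; ring
    have e2 : (AffineMap.lineMap P Q t : Pt).2 = P.2 + t * (Q.2 - P.2) := by
      simp [AffineMap.lineMap_apply]; ring
    rw [e1, e2]
    refine ⟨by nlinarith, by nlinarith, ?_⟩
    unfold ht
    field_simp
    ring
  · rintro ⟨h0, h1, h2⟩
    refine ⟨(X.1 - P.1) / (Q.1 - P.1), ⟨?_, ?_⟩, ?_⟩
    · exact div_nonneg (by linarith) (by linarith)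
    · rw [div_le_one (by linarith)]
      linarith
    · ext
      · simp [AffineMap.lineMap_apply]
        field_simp
        ring
      · simp [AffineMap.lineMap_apply]
        rw [h2]
        unfold ht
        ring

/-- the abscissa of `X` is strictly between those of `P` and `Q` -/
def bt (P Q X : Pt) : Prop := (P.1 < X.1 ∧ X.1 < Q.1) ∨ (Q.1 < X.1 ∧ X.1 < P.1)

open Classical in
/-- `X` is below the edge `PQ` -/
noncomputable def up (X P Q : Pt) : ZMod 2 :=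
  if (P.1 < X.1 ∧ X.1 < Q.1 ∧ X.2 < ht P Q X.1) ∨ (Q.1 < X.1 ∧ X.1 < P.1 ∧ X.2 < ht Q P X.1)
  then 1 else 0

open Classical in
/-- `X` is above the edge `PQ` -/
noncomputable def dn (X P Q : Pt) : ZMod 2 :=
  if (P.1 < X.1 ∧ X.1 < Q.1 ∧ ht P Q X.1 < X.2) ∨ (Q.1 < X.1 ∧ X.1 < P.1 ∧ ht Q P X.1 < X.2)
  then 1 else 0

theorem up_comm (X P Q : Pt) : up X P Q = up X Q P := by
  unfold up
  exact if_congr or_comm rfl rfl

theorem dn_comm (X P Q : Pt) : dn X P Q = dn X Q P := by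
  unfold dn
  exact if_congr or_comm rfl rfl

theorem up_self (X P : Pt) : up X P P = 0 := by
  unfold up
  refine if_neg ?_
  rintro (⟨h1, h2, -⟩ | ⟨h1, h2, -⟩) <;> exact lt_asymm h1 h2

theorem dn_self (X P : Pt) : dn X P P = 0 := by
  unfold dn
  refine if_neg ?_
  rintro (⟨h1, h2, -⟩ | ⟨h1, h2, -⟩) <;> exact lt_asymm h1 h2

theorem two_zero : (2 : ZMod 2) = 0 := rfl

theorem add_self2 (a : ZMod 2) : a + a = 0 := by
  rw [← two_mul, two_zero, zero_mul]

/-- affine functions on an interval -/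
theorem affine_zero {a b l r : ℝ} (hlr : l < r) (hl : a * l + b ≠ 0) (hr : a * r + b ≠ 0) :
    (∃ x, l ≤ x ∧ x ≤ r ∧ a * x + b = 0) ↔ ¬(0 < a * l + b ↔ 0 < a * r + b) := by
  constructor
  · rintro ⟨x, h1, h2, h3⟩ h
    have h4 : l < x := lt_of_le_of_ne h1 (by rintro rfl; exact hl h3)
    have h5 : x < r := lt_of_le_of_ne h2 (by rintro rfl; exact hr h3)
    rcases lt_or_gt_of_ne hl with h6 | h6
    · have h7 : ¬(0 < a * r + b) := fun h8 => lt_asymm h6 (h.2 h8)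
      have h8 : a * r + b < 0 := lt_of_le_of_ne (not_lt.1 h7) hr
      have : 0 < a * (x - l) := by nlinarith
      have h9 : 0 < a := by
        by_contra hc
        nlinarith
      nlinarith
    · have h7 := h.1 h6
      have : a * (x - l) < 0 := by nlinarith
      have h9 : a < 0 := by
        by_contra hc
        nlinarith
      nlinarith
  · intro h
    have h6 : (0 < a * l + b ∧ a * r + b < 0) ∨ (a * l + b < 0 ∧ 0 < a * r + b) := by
      rcases lt_or_gt_of_ne hl with h1 | h1 <;> rcases lt_or_gt_of_ne hr with h2 | h2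
      · exact absurd ⟨fun h3 => absurd h3 (lt_asymm h1), fun h3 => absurd h3 (lt_asymm h2)⟩ h
      · exact Or.inr ⟨h1, h2⟩
      · exact Or.inl ⟨h1, h2⟩
      · exact absurd ⟨fun _ => h2, fun _ => h1⟩ h
    have ha : a ≠ 0 := by
      rintro rfl
      rcases h6 with ⟨h1, h2⟩ | ⟨h1, h2⟩ <;> linarith
    refine ⟨-b / a, ?_, ?_, by field_simp; ring⟩
    · rcases lt_or_gt_of_ne ha with h7 | h7
      · rw [le_div_iff_of_neg h7]
        rcases h6 with ⟨h1, h2⟩ | ⟨h1, h2⟩ <;> nlinarith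
      · rw [le_div_iff₀ h7]
        rcases h6 with ⟨h1, h2⟩ | ⟨h1, h2⟩ <;> nlinarith
    · rcases lt_or_gt_of_ne ha with h7 | h7
      · rw [div_le_iff_of_neg h7]
        rcases h6 with ⟨h1, h2⟩ | ⟨h1, h2⟩ <;> nlinarith
      · rw [div_le_iff₀ h7]
        rcases h6 with ⟨h1, h2⟩ | ⟨h1, h2⟩ <;> nlinarith

theorem ht_affine (P Q : Pt) : ∃ a b : ℝ, ∀ x, ht P Q x = a * x + b :=
  ⟨(Q.2 - P.2) / (Q.1 - P.1), P.2 - P.1 * ((Q.2 - P.2) / (Q.1 - P.1)), fun x => by
    unfold ht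
    ring⟩

/-- two edges over a common interval -/
theorem meet_iff {P Q R S : Pt} (hPQ : P.1 < Q.1) (hRS : R.1 < S.1) {l r : ℝ} (hlr : l < r)
    (h1 : P.1 ≤ l) (h2 : R.1 ≤ l) (h3 : r ≤ Q.1) (h4 : r ≤ S.1)
    (h5 : l = P.1 ∨ l = R.1) (h6 : r = Q.1 ∨ r = S.1)
    (hl : ht P Q l ≠ ht R S l) (hr : ht P Q r ≠ ht R S r) :
    (∃ X, X ∈ segment ℝ P Q ∧ X ∈ segment ℝ R S) ↔
      ¬(ht P Q l < ht R S l ↔ ht P Q r < ht R S r) := by
  obtain ⟨a, b, hab⟩ := ht_affine P Q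
  obtain ⟨c, d, hcd⟩ := ht_affine R S
  have e : ∀ x, ht R S x - ht P Q x = (c - a) * x + (d - b) := by
    intro x
    rw [hab, hcd]
    ring
  have h7 := affine_zero (a := c - a) (b := d - b) hlr
    (by rw [← e]; exact sub_ne_zero.2 hl.symm) (by rw [← e]; exact sub_ne_zero.2 hr.symm)
  rw [← e l, ← e r, sub_pos, sub_pos] at h7
  rw [← h7]
  constructor
  · rintro ⟨X, hX1, hX2⟩
    rw [mem_seg hPQ] at hX1
    rw [mem_seg hRS] at hX2
    refine ⟨X.1, ?_, ?_, ?_⟩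
    · rcases h5 with rfl | rfl
      · exact hX1.1
      · exact hX2.1
    · rcases h6 with rfl | rfl
      · exact hX1.2.1
      · exact hX2.2.1
    · rw [← e, ← hX1.2.2, ← hX2.2.2, sub_self]
  · rintro ⟨x, hx1, hx2, hx3⟩
    rw [← e] at hx3
    refine ⟨(x, ht P Q x), ?_, ?_⟩
    · rw [mem_seg hPQ]
      exact ⟨h1.trans hx1, hx2.trans h3, rfl⟩
    · rw [mem_seg hRS]
      exact ⟨h2.trans hx1, hx2.trans h4, by
        show ht P Q x = ht R S x
        linarith⟩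

theorem up_lt {X R S : Pt} (h : R.1 < S.1) (hX : R.1 < X.1) (hX' : X.1 < S.1) :
    up X R S = open Classical in if X.2 < ht R S X.1 then 1 else 0 := by
  classical
  unfold up
  refine if_congr ⟨?_, fun h1 => Or.inl ⟨hX, hX', h1⟩⟩ rfl rfl
  rintro (⟨-, -, h1⟩ | ⟨h1, h2, -⟩)
  · exact h1
  · exact absurd (h1.trans h2) (lt_asymm h)

theorem dn_lt {X R S : Pt} (h : R.1 < S.1) (hX : R.1 < X.1) (hX' : X.1 < S.1) :
    dn X R S = open Classical in if ht R S X.1 < X.2 then 1 else 0 := by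
  classical
  unfold dn
  refine if_congr ⟨?_, fun h1 => Or.inl ⟨hX, hX', h1⟩⟩ rfl rfl
  rintro (⟨-, -, h1⟩ | ⟨h1, h2, -⟩)
  · exact h1
  · exact absurd (h1.trans h2) (lt_asymm h)

theorem up_out {X R S : Pt} (h : R.1 < S.1) (hX : X.1 < R.1 ∨ S.1 < X.1) : up X R S = 0 := by
  unfold up
  refine if_neg ?_
  rintro (⟨h1, h2, -⟩ | ⟨h1, h2, -⟩)
  · rcases hX with h3 | h3
    · exact lt_asymm h1 h3
    · exact lt_asymm h2 h3
  · exact lt_asymm h (h1.trans h2)

theorem dn_out {X R S : Pt} (h : R.1 < S.1) (hX : X.1 < R.1 ∨ S.1 < X.1) : dn X R S = 0 := by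
  unfold dn
  refine if_neg ?_
  rintro (⟨h1, h2, -⟩ | ⟨h1, h2, -⟩)
  · rcases hX with h3 | h3
    · exact lt_asymm h1 h3
    · exact lt_asymm h2 h3
  · exact lt_asymm h (h1.trans h2)

open Classical in
theorem four0 {P Q R S : Pt} (hPQ : P.1 < Q.1) (hRS : R.1 < S.1) (hPR : P.1 ≠ R.1)
    (hPS : P.1 ≠ S.1) (hQR : Q.1 ≠ R.1) (hQS : Q.1 ≠ S.1) (h1 : P ∉ segment ℝ R S)
    (h2 : Q ∉ segment ℝ R S) (h3 : R ∉ segment ℝ P Q) (h4 : S ∉ segment ℝ P Q) :
    up P R S + up Q R S + (dn R P Q + dn S P Q) =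
      if (∃ X, X ∈ segment ℝ P Q ∧ X ∈ segment ℝ R S) then 1 else 0 := by
  rcases lt_or_gt_of_ne hQR with hq | hq
  · rw [up_out hRS (Or.inl (hPQ.trans hq)), up_out hRS (Or.inl hq), dn_out hPQ (Or.inr hq),
      dn_out hPQ (Or.inr (hq.trans hRS)), if_neg, add_zero]
    · rfl
    · rintro ⟨X, hX1, hX2⟩
      rw [mem_seg hPQ] at hX1
      rw [mem_seg hRS] at hX2
      linarith [hX1.2.1, hX2.1]
  rcases lt_or_gt_of_ne hPS with hp | hp
  swap
  · rw [up_out hRS (Or.inr hp), up_out hRS (Or.inr (hp.trans hPQ)),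
      dn_out hPQ (Or.inl (hRS.trans hp)), dn_out hPQ (Or.inl hp), if_neg, add_zero]
    · rfl
    · rintro ⟨X, hX1, hX2⟩
      rw [mem_seg hPQ] at hX1
      rw [mem_seg hRS] at hX2
      linarith [hX1.1, hX2.2.1]
  obtain ⟨l, l1, l2, l3, l4, l5, l6⟩ : ∃ l, P.1 ≤ l ∧ R.1 ≤ l ∧ (l = P.1 ∨ l = R.1) ∧
      ht P Q l ≠ ht R S l ∧ (l < Q.1 ∧ l < S.1) ∧
      up P R S + dn R P Q = if ht P Q l < ht R S l then 1 else 0 := by
    rcases lt_or_gt_of_ne hPR with h5 | h5
    · refine ⟨R.1, h5.le, le_refl _, Or.inr rfl, ?_, ⟨hq, hRS⟩, ?_⟩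
      · intro h6
        refine h3 ((mem_seg hPQ _).2 ⟨h5.le, hq.le, ?_⟩)
        rw [h6, ht_left]
      · rw [up_out hRS (Or.inl h5), dn_lt hPQ h5 hq, ht_left R S, zero_add]
    · refine ⟨P.1, le_refl _, h5.le, Or.inl rfl, ?_, ⟨hPQ, hp⟩, ?_⟩
      · intro h6
        refine h1 ((mem_seg hRS _).2 ⟨h5.le, hp.le, ?_⟩)
        rw [← h6, ht_left]
      · rw [dn_out hPQ (Or.inl h5), up_lt hRS h5 hp, ht_left P Q, add_zero]
  obtain ⟨r, r1, r2, r3, r4, r5, r6⟩ : ∃ r, r ≤ Q.1 ∧ r ≤ S.1 ∧ (r = Q.1 ∨ r = S.1) ∧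
      ht P Q r ≠ ht R S r ∧ l < r ∧
      up Q R S + dn S P Q = if ht P Q r < ht R S r then 1 else 0 := by
    rcases lt_or_gt_of_ne hQS with h5 | h5
    · refine ⟨Q.1, le_refl _, h5.le, Or.inl rfl, ?_, l5.1, ?_⟩
      · intro h6
        refine h2 ((mem_seg hRS _).2 ⟨hq.le, h5.le, ?_⟩)
        rw [← h6, ht_right hPQ]
      · rw [dn_out hPQ (Or.inr h5), up_lt hRS hq h5, ht_right hPQ, add_zero]
    · refine ⟨S.1, h5.le, le_refl _, Or.inr rfl, ?_, l5.2, ?_⟩
      · intro h6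
        refine h4 ((mem_seg hPQ _).2 ⟨hp.le, h5.le, ?_⟩)
        rw [h6, ht_right hRS]
      · rw [up_out hRS (Or.inr h5), dn_lt hPQ hp h5, ht_right hRS, zero_add]
  have h5 := meet_iff hPQ hRS r5 l1 l2 r1 r2 l3 r3 l4 r4
  have h6 : up P R S + up Q R S + (dn R P Q + dn S P Q) =
      (up P R S + dn R P Q) + (up Q R S + dn S P Q) := by ring
  rw [h6, l6, r6, if_congr h5 rfl rfl]
  by_cases a : ht P Q l < ht R S l <;> by_cases b : ht P Q r < ht R S r <;> simp [a, b]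
  exact two_zero

open Classical in
/-- the four-point lemma -/
theorem four {P Q R S : Pt} (hPQ : P.1 = Q.1 → P = Q) (hRS : R.1 = S.1 → R = S)
    (hPR : P.1 ≠ R.1) (hPS : P.1 ≠ S.1) (hQR : Q.1 ≠ R.1) (hQS : Q.1 ≠ S.1)
    (h1 : P ∉ segment ℝ R S) (h2 : Q ∉ segment ℝ R S) (h3 : R ∉ segment ℝ P Q)
    (h4 : S ∉ segment ℝ P Q) :
    up P R S + up Q R S + (dn R P Q + dn S P Q) =
      if (∃ X, X ∈ segment ℝ P Q ∧ X ∈ segment ℝ R S) then 1 else 0 := by
  by_cases hPQ' : P = Q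
  · subst hPQ'
    rw [dn_self, dn_self, add_self2, if_neg]
    · rfl
    · rintro ⟨X, hX1, hX2⟩
      rw [segment_same] at hX1
      rw [Set.mem_singleton_iff.1 hX1] at hX2
      exact h1 hX2
  by_cases hRS' : R = S
  · subst hRS'
    rw [up_self, up_self, add_self2, if_neg]
    · rw [zero_add, add_self2]
    · rintro ⟨X, hX1, hX2⟩
      rw [segment_same] at hX2
      rw [Set.mem_singleton_iff.1 hX2] at hX1
      exact h3 hX1
  rcases lt_or_gt_of_ne (fun h => hPQ' (hPQ h)) with a | a <;>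
    rcases lt_or_gt_of_ne (fun h => hRS' (hRS h)) with b | b
  · exact four0 a b hPR hPS hQR hQS h1 h2 h3 h4
  · rw [up_comm P, up_comm Q, segment_symm ℝ R S, add_comm (dn R P Q)]
    rw [segment_symm ℝ R S] at h1 h2
    exact four0 a b hPS hPR hQS hQR h1 h2 h4 h3
  · rw [add_comm (up P R S), dn_comm R, dn_comm S, segment_symm ℝ P Q]
    rw [segment_symm ℝ P Q] at h3 h4
    exact four0 a b hQR hQS hPR hPS h2 h1 h3 h4
  · rw [up_comm P, up_comm Q, dn_comm R, dn_comm S, segment_symm ℝ P Q, segment_symm ℝ R S,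
      add_comm (up P S R), add_comm (dn R Q P)]
    rw [segment_symm ℝ P Q] at h3 h4
    rw [segment_symm ℝ R S] at h1 h2
    exact four0 a b hQS hQR hPS hPR h2 h1 h4 h3

/-! ### polygonal paths -/

/-- the last point of a path -/
def lastp : Pt → List Pt → Pt
  | P, [] => P
  | _, Q :: l => lastp Q l

/-- the path lies in `U` -/
def InU (U : Set Pt) : Pt → List Pt → Prop
  | P, [] => P ∈ U
  | P, Q :: l => segment ℝ P Q ⊆ U ∧ InU U Q l

/-- number of edges above `X` -/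
noncomputable def upL (X : Pt) : Pt → List Pt → ZMod 2
  | _, [] => 0
  | P, Q :: l => up X P Q + upL X Q l

/-- number of edges below `X` -/
noncomputable def dnL (X : Pt) : Pt → List Pt → ZMod 2
  | _, [] => 0
  | P, Q :: l => dn X P Q + dnL X Q l

/-- all vertices are in `V` -/
def VIn (V : Set Pt) : Pt → List Pt → Prop
  | P, [] => P ∈ V
  | P, Q :: l => P ∈ V ∧ VIn V Q l

/-- distinct points of `V` have distinct abscissas -/
def Gen (V : Set Pt) : Prop := ∀ P ∈ V, ∀ Q ∈ V, P.1 = Q.1 → P = Q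

theorem InU.head {U : Set Pt} : ∀ {P : Pt} {l : List Pt}, InU U P l → P ∈ U
  | _, [], h => h
  | _, _ :: _, h => h.1 (left_mem_segment ℝ _ _)

theorem VIn.head {V : Set Pt} : ∀ {P : Pt} {l : List Pt}, VIn V P l → P ∈ V
  | _, [], h => h
  | _, _ :: _, h => h.1

theorem lastp_mem {V : Set Pt} : ∀ {P : Pt} {l : List Pt}, VIn V P l → lastp P l ∈ V
  | _, [], h => h
  | _, Q :: l, h => lastp_mem (P := Q) (l := l) h.2

theorem lastp_memU {U : Set Pt} : ∀ {P : Pt} {l : List Pt}, InU U P l → lastp P l ∈ U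
  | _, [], h => h
  | _, Q :: l, h => lastp_memU (P := Q) (l := l) h.2

/-- disjoint edges -/
theorem four_disj {V : Set Pt} (hV : Gen V) {P Q R S : Pt} (hP : P ∈ V) (hQ : Q ∈ V) (hR : R ∈ V)
    (hS : S ∈ V) (h : Disjoint (segment ℝ P Q) (segment ℝ R S)) :
    up P R S + up Q R S + (dn R P Q + dn S P Q) = 0 := by
  have h0 : ∀ X, X ∈ segment ℝ P Q → X ∉ segment ℝ R S := fun X hX => Set.disjoint_left.1 h hX
  have h1 : P ∉ segment ℝ R S := h0 _ (left_mem_segment ℝ _ _)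
  have h2 : Q ∉ segment ℝ R S := h0 _ (right_mem_segment ℝ _ _)
  have h3 : R ∉ segment ℝ P Q := fun hh => h0 _ hh (left_mem_segment ℝ _ _)
  have h4 : S ∉ segment ℝ P Q := fun hh => h0 _ hh (right_mem_segment ℝ _ _)
  rw [four (hV P hP Q hQ) (hV R hR S hS)
    (fun h5 => h1 (by rw [hV P hP R hR h5]; exact left_mem_segment ℝ _ _))
    (fun h5 => h1 (by rw [hV P hP S hS h5]; exact right_mem_segment ℝ _ _))
    (fun h5 => h2 (by rw [hV Q hQ R hR h5]; exact left_mem_segment ℝ _ _))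
    (fun h5 => h2 (by rw [hV Q hQ S hS h5]; exact right_mem_segment ℝ _ _)) h1 h2 h3 h4, if_neg]
  rintro ⟨X, hX1, hX2⟩
  exact h0 X hX1 hX2

/-- an edge and a path -/
theorem path1 {V : Set Pt} (hV : Gen V) {P Q : Pt} (hP : P ∈ V) (hQ : Q ∈ V) {U : Set Pt}
    (h : Disjoint (segment ℝ P Q) U) : ∀ (R : Pt) (m : List Pt), VIn V R m → InU U R m →
      upL P R m + upL Q R m + (dn R P Q + dn (lastp R m) P Q) = 0
  | R, [], _, _ => by
    show (0 : ZMod 2) + 0 + (dn R P Q + dn R P Q) = 0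
    rw [add_self2 (dn R P Q), add_zero, add_zero]
  | R, S :: m, hm, hU => by
    have h1 := path1 hV hP hQ h S m hm.2 hU.2
    have h2 := four_disj hV hP hQ hm.1 hm.2.head (h.mono_right hU.1)
    show (up P R S + upL P S m) + (up Q R S + upL Q S m) +
      (dn R P Q + dn (lastp S m) P Q) = 0
    have h3 := add_self2 (dn S P Q)
    linear_combination h1 + h2 - h3

/-- two disjoint paths -/
theorem path2 {V : Set Pt} (hV : Gen V) {U U' : Set Pt} (h : Disjoint U U') {R : Pt} {m : List Pt}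
    (hm : VIn V R m) (hU' : InU U' R m) : ∀ (P : Pt) (l : List Pt), VIn V P l → InU U P l →
      upL P R m + upL (lastp P l) R m + (dnL R P l + dnL (lastp R m) P l) = 0
  | P, [], _, _ => by
    show upL P R m + upL P R m + (0 + 0) = 0
    rw [add_self2, add_zero, add_zero]
  | P, Q :: l, hl, hU => by
    have h1 := path2 hV h hm hU' Q l hl.2 hU.2
    have h2 := path1 hV hl.1 hl.2.head (h.mono_left hU.1) R m hm hU'
    show upL P R m + upL (lastp Q l) R m + ((dn R P Q + dnL R Q l) +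
      (dn (lastp R m) P Q + dnL (lastp R m) Q l)) = 0
    have h3 := add_self2 (upL Q R m)
    linear_combination h1 + h2 - h3

open Classical in
/-- the indicator of `P.1 < X.1` -/
noncomputable def lt1 (P X : Pt) : ZMod 2 := if P.1 < X.1 then 1 else 0

theorem lt1_swap {P X : Pt} (h : P.1 ≠ X.1) : lt1 P X + lt1 X P = 1 := by
  unfold lt1
  rcases lt_or_gt_of_ne h with h1 | h1
  · rw [if_pos h1, if_neg (lt_asymm h1), add_zero]
  · rw [if_pos h1, if_neg (lt_asymm h1), zero_add]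

theorem updn1 {P Q X : Pt} (hPQ : P.1 = Q.1 → P = Q) (hP : X.1 ≠ P.1) (hQ : X.1 ≠ Q.1)
    (hX : X ∉ segment ℝ P Q) : up X P Q + dn X P Q = lt1 P X + lt1 Q X := by
  have key : ∀ A B : Pt, A.1 < B.1 → X.1 ≠ A.1 → X.1 ≠ B.1 → X ∉ segment ℝ A B →
      up X A B + dn X A B = lt1 A X + lt1 B X := by
    intro A B hAB hA hB hn
    unfold lt1
    rcases lt_or_gt_of_ne hA with h1 | h1
    · rw [up_out hAB (Or.inl h1), dn_out hAB (Or.inl h1), if_neg (lt_asymm h1),
        if_neg (lt_asymm (h1.trans hAB))]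
    · rcases lt_or_gt_of_ne hB with h2 | h2
      · rw [up_lt hAB h1 h2, dn_lt hAB h1 h2, if_pos h1, if_neg (lt_asymm h2)]
        have h3 : X.2 ≠ ht A B X.1 := fun h3 => hn ((mem_seg hAB X).2 ⟨h1.le, h2.le, h3⟩)
        rcases lt_or_gt_of_ne h3 with h4 | h4
        · rw [if_pos h4, if_neg (lt_asymm h4)]
        · rw [if_neg (lt_asymm h4), if_pos h4, zero_add, add_zero]
      · rw [up_out hAB (Or.inr h2), dn_out hAB (Or.inr h2), if_pos h1, if_pos h2]
        exact two_zero.symm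
  rcases lt_trichotomy P.1 Q.1 with h | h | h
  · exact key P Q h hP hQ hX
  · have := hPQ h
    subst this
    rw [up_self, dn_self, add_self2 (lt1 P X), add_zero]
  · rw [up_comm, dn_comm, add_comm (lt1 P X)]
    rw [segment_symm ℝ P Q] at hX
    exact key Q P h hQ hP hX

theorem updn {V : Set Pt} (hV : Gen V) {X : Pt} (hX : X ∈ V) {U : Set Pt} (hXU : X ∉ U) :
    ∀ (P : Pt) (l : List Pt), VIn V P l → InU U P l →
      upL X P l + dnL X P l = lt1 P X + lt1 (lastp P l) X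
  | P, [], _, _ => by
    show (0 : ZMod 2) + 0 = lt1 P X + lt1 P X
    rw [add_self2 (lt1 P X), add_zero]
  | P, Q :: l, hl, hU => by
    have h1 := updn hV hX hXU Q l hl.2 hU.2
    have h2 : X ∉ segment ℝ P Q := fun h => hXU (hU.1 h)
    have h3 := updn1 (hV P hl.1 Q hl.2.head)
      (fun h5 => h2 (by rw [hV X hX P hl.1 h5]; exact left_mem_segment ℝ _ _))
      (fun h5 => h2 (by rw [hV X hX Q hl.2.head h5]; exact right_mem_segment ℝ _ _)) h2
    show (up X P Q + upL X Q l) + (dn X P Q + dnL X Q l) = lt1 P X + lt1 (lastp Q l) X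
    have h4 := add_self2 (lt1 Q X)
    linear_combination h1 + h3 + h4

end Pool.Agent.SG57
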