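import Pool.Agent.SG57.Geo

/-!
# The two tools, in general position and in general
-/

set_option autoImplicit false

namespace Pool.Agent.SG57

/-- `U` contains a polygonal path from `P` to `Q` -/
def Pth (U : Set Pt) (P Q : Pt) : Prop := ∃ l : List Pt, InU U P l ∧ lastp P l = Q

/-- the same with all vertices in `V` -/
def PthV (V U : Set Pt) (P Q : Pt) : Prop := ∃ l : List Pt, InU U P l ∧ VIn V P l ∧ lastp P l = Q

/-- T2 in general position -/
theorem T2gen {V : Set Pt} (hV : Gen V) {A B : Set Pt} {p1 p2 q1 q2 : Pt} (hA : PthV V A p1 p2)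
    (hB : PthV V B q1 q2) (hAB : Disjoint A B) (hA' : Disjoint A (segment ℝ q1 q2))
    (hB' : Disjoint B (segment ℝ p1 p2)) : Disjoint (segment ℝ p1 p2) (segment ℝ q1 q2) := by
  classical
  obtain ⟨l, hl, hlV, rfl⟩ := hA
  obtain ⟨m, hm, hmV, rfl⟩ := hB
  set p2 := lastp p1 l with hp2
  set q2 := lastp q1 m with hq2
  by_contra hc
  have hp1V := hlV.head
  have hq1V := hmV.head
  have hp2V : p2 ∈ V := lastp_mem hlV
  have hq2V : q2 ∈ V := lastp_mem hmV
  have hp1A : p1 ∈ A := hl.head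
  have hp2A : p2 ∈ A := lastp_memU hl
  have hq1B : q1 ∈ B := hm.head
  have hq2B : q2 ∈ B := lastp_memU hm
  have n1 : p1 ∉ segment ℝ q1 q2 := Set.disjoint_left.1 hA' hp1A
  have n2 : p2 ∉ segment ℝ q1 q2 := Set.disjoint_left.1 hA' hp2A
  have n3 : q1 ∉ segment ℝ p1 p2 := Set.disjoint_left.1 hB' hq1B
  have n4 : q2 ∉ segment ℝ p1 p2 := Set.disjoint_left.1 hB' hq2B
  have e1 := path2 hV hAB hmV hm p1 l hlV hl
  have e2 := path1 hV hp1V hp2V hB'.symm q1 m hmV hm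
  have e3 : (up p1 q1 q2 + 0) + (up p2 q1 q2 + 0) + (dnL q1 p1 l + dnL q2 p1 l) = 0 :=
    path2 hV hA' (R := q1) (m := [q2]) ⟨hq1V, hq2V⟩
      ⟨subset_rfl, right_mem_segment ℝ _ _⟩ p1 l hlV hl
  have e4 := four (hV p1 hp1V p2 hp2V) (hV q1 hq1V q2 hq2V)
    (fun h => n1 (by rw [hV p1 hp1V q1 hq1V h]; exact left_mem_segment ℝ _ _))
    (fun h => n1 (by rw [hV p1 hp1V q2 hq2V h]; exact right_mem_segment ℝ _ _))
    (fun h => n2 (by rw [hV p2 hp2V q1 hq1V h]; exact left_mem_segment ℝ _ _))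
    (fun h => n2 (by rw [hV p2 hp2V q2 hq2V h]; exact right_mem_segment ℝ _ _)) n1 n2 n3 n4
  rw [if_pos (by
    rw [Set.not_disjoint_iff] at hc
    obtain ⟨X, h1, h2⟩ := hc
    exact ⟨X, h1, h2⟩)] at e4
  have e5 : (1 : ZMod 2) = 0 := by
    linear_combination e1 + e2 + e3 - e4 - (upL p1 q1 m + upL p2 q1 m + dnL q1 p1 l +
      dnL q2 p1 l) * two_zero
  exact one_ne_zero e5

theorem T1gen {V : Set Pt} (hV : Gen V) (a c : Fin 3 → Pt) (U : Fin 3 → Fin 3 → Set Pt)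
    (hU : ∀ i j, PthV V (U i j) (a i) (c j))
    (hd : ∀ i j i' j', i ≠ i' → j ≠ j' → Disjoint (U i j) (U i' j')) : False := by
  classical
  choose l hl hlV hlc using hU
  have ha : ∀ i, a i ∈ V := fun i => (hlV i 0).head
  have hc : ∀ j, c j ∈ V := fun j => by
    rw [← hlc 0 j]
    exact lastp_mem (hlV 0 j)
  -- abbreviations
  set ua : Fin 3 → Fin 3 → Fin 3 → ZMod 2 := fun x i j => upL (a x) (a i) (l i j) with hua
  set uc : Fin 3 → Fin 3 → Fin 3 → ZMod 2 := fun x i j => upL (c x) (a i) (l i j) with huc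
  set da : Fin 3 → Fin 3 → Fin 3 → ZMod 2 := fun x i j => dnL (a x) (a i) (l i j) with hda
  set dc : Fin 3 → Fin 3 → Fin 3 → ZMod 2 := fun x i j => dnL (c x) (a i) (l i j) with hdc
  have pl : ∀ i j i' j', i ≠ i' → j ≠ j' →
      ua i i' j' + uc j i' j' + (da i' i j + dc j' i j) = 0 := by
    intro i j i' j' h1 h2
    have h := path2 hV (hd i j i' j' h1 h2) (hlV i' j') (hl i' j') (a i) (l i j) (hlV i j)
      (hl i j)
    rw [hlc, hlc] at h
    exact h
  have hn : ∀ k l', k ≠ l' → ∀ i, c k ∉ U i l' := by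
    intro k l' hk i hm
    obtain ⟨i', hi'⟩ : ∃ i' : Fin 3, i' ≠ i := ⟨i + 1, by fin_cases i <;> decide⟩
    refine Set.disjoint_left.1 (hd i' k i l' hi' hk) ?_ hm
    rw [← hlc i' k]
    exact lastp_memU (hl i' k)
  have ud : ∀ k l', k ≠ l' → ∀ i, uc k i l' + dc k i l' = lt1 (a i) (c k) + lt1 (c l') (c k) := by
    intro k l' hk i
    have h := updn hV (hc k) (hn k l' hk i) (a i) (l i l') (hlV i l') (hl i l')
    rw [hlc] at h
    exact h
  have hcc : ∀ k l', k ≠ l' → lt1 (c l') (c k) + lt1 (c k) (c l') = 1 := by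
    intro k l' hk
    refine lt1_swap fun h => ?_
    have h1 := hV _ (hc l') _ (hc k) h
    refine hn k l' hk 0 ?_
    rw [← h1, ← hlc 0 l']
    exact lastp_memU (hl 0 l')
  have e5 : (1 : ZMod 2) = 0 := by
    linear_combination -(pl 2 0 0 1 (by decide) (by decide) +
      pl 2 0 0 2 (by decide) (by decide) +
      pl 2 0 1 1 (by decide) (by decide) +
      pl 2 0 1 2 (by decide) (by decide) +
      pl 2 1 0 0 (by decide) (by decide) +
      pl 2 1 0 2 (by decide) (by decide) +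
      pl 2 1 1 0 (by decide) (by decide) +
      pl 2 1 1 2 (by decide) (by decide) +
      pl 2 2 0 0 (by decide) (by decide) +
      pl 2 2 0 1 (by decide) (by decide) +
      pl 2 2 1 0 (by decide) (by decide) +
      pl 2 2 1 1 (by decide) (by decide) +
      pl 0 0 1 1 (by decide) (by decide) +
      ud 0 1 (by decide) 0 +
      pl 0 0 1 2 (by decide) (by decide) +
      ud 0 2 (by decide) 0 +
      pl 0 1 1 0 (by decide) (by decide) +
      ud 1 0 (by decide) 0 +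
      pl 0 1 1 2 (by decide) (by decide) +
      ud 1 2 (by decide) 0 +
      pl 0 2 1 0 (by decide) (by decide) +
      ud 2 0 (by decide) 0 +
      pl 0 2 1 1 (by decide) (by decide) +
      ud 2 1 (by decide) 0 +
      hcc 0 1 (by decide) +
      hcc 0 2 (by decide) +
      hcc 1 2 (by decide)) + (-1 + da 0 2 0 + da 0 2 1 + da 0 2 2 + da 1 0 0 + da 1 0 1 + da 1 0 2 + da 1 2 0 + da 1 2 1 + da 1 2 2 + dc 0 0 1 + dc 0 0 2 + dc 0 2 1 + dc 0 2 2 + dc 1 0 0 + dc 1 0 2 + dc 1 2 0 + dc 1 2 2 + dc 2 0 0 + dc 2 0 1 + dc 2 2 0 + dc 2 2 1 + -1 * lt1 (a 0) (c 0) + -1 * lt1 (a 0) (c 1) + -1 * lt1 (a 0) (c 2) + ua 0 1 0 + ua 0 1 1 + ua 0 1 2 + ua 2 0 0 + ua 2 0 1 + ua 2 0 2 + ua 2 1 0 + ua 2 1 1 + ua 2 1 2 + uc 0 0 1 + uc 0 0 2 + uc 0 1 1 + uc 0 1 2 + uc 1 0 0 + uc 1 0 2 + uc 1 1 0 + uc 1 1 2 + uc 2 0 0 + uc 2 0 1 + uc 2 1 0 + uc 2 1 1) * two_zero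
  exact one_ne_zero e5

/-! ### generic direction -/

/-- a shear -/
noncomputable def shr (t : ℝ) : Pt →ₗ[ℝ] Pt :=
  (LinearMap.fst ℝ ℝ ℝ + t • LinearMap.snd ℝ ℝ ℝ).prod (LinearMap.snd ℝ ℝ ℝ)

theorem shr_fst (t : ℝ) (P : Pt) : (shr t P).1 = P.1 + t * P.2 := rfl

theorem shr_snd (t : ℝ) (P : Pt) : (shr t P).2 = P.2 := rfl

theorem shr_inj (t : ℝ) : Function.Injective (shr t) := by
  intro P Q h
  have h1 := congrArg Prod.fst h
  have h2 := congrArg Prod.snd h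
  rw [shr_fst, shr_fst] at h1
  rw [shr_snd, shr_snd] at h2
  refine Prod.ext ?_ h2
  rw [h2] at h1
  linarith

theorem shr_seg (t : ℝ) (P Q : Pt) :
    shr t '' segment ℝ P Q = segment ℝ (shr t P) (shr t Q) :=
  image_segment ℝ (shr t).toAffineMap P Q

/-- a generic shear -/
theorem exists_gen {V : Set Pt} (hV : V.Finite) : ∃ t : ℝ, Gen (shr t '' V) := by
  classical
  obtain ⟨t, ht⟩ := Infinite.exists_notMem_finset
    ((hV.toFinset ×ˢ hV.toFinset).image fun z : Pt × Pt => (z.2.1 - z.1.1) / (z.1.2 - z.2.2))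
  refine ⟨t, ?_⟩
  rintro _ ⟨P, hP, rfl⟩ _ ⟨Q, hQ, rfl⟩ h
  congr 1
  rw [shr_fst, shr_fst] at h
  by_contra hPQ
  by_cases h2 : P.2 = Q.2
  · refine hPQ (Prod.ext ?_ h2)
    rw [h2] at h
    linarith
  · refine ht (Finset.mem_image.2 ⟨(P, Q), ?_, ?_⟩)
    · rw [Finset.mem_product]
      exact ⟨hV.mem_toFinset.2 hP, hV.mem_toFinset.2 hQ⟩
    · have h3 : P.2 - Q.2 ≠ 0 := sub_ne_zero.2 h2
      show (Q.1 - P.1) / (P.2 - Q.2) = t
      rw [div_eq_iff h3]
      linarith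

theorem InU.map (t : ℝ) {U : Set Pt} : ∀ {P : Pt} {l : List Pt}, InU U P l →
    InU (shr t '' U) (shr t P) (l.map (shr t))
  | P, [], h => ⟨P, h, rfl⟩
  | P, Q :: l, h => by
    refine ⟨?_, InU.map t (P := Q) (l := l) h.2⟩
    rw [← shr_seg]
    exact Set.image_mono h.1

theorem VIn.map (t : ℝ) {V : Set Pt} : ∀ {P : Pt} {l : List Pt}, VIn V P l →
    VIn (shr t '' V) (shr t P) (l.map (shr t))
  | P, [], h => ⟨P, h, rfl⟩
  | P, Q :: l, h => ⟨⟨P, h.1, rfl⟩, VIn.map t (P := Q) (l := l) h.2⟩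

theorem lastp_map (t : ℝ) : ∀ (P : Pt) (l : List Pt),
    lastp (shr t P) (l.map (shr t)) = shr t (lastp P l)
  | _, [] => rfl
  | _, Q :: l => lastp_map t Q l

theorem PthV.map (t : ℝ) {V U : Set Pt} {P Q : Pt} (h : PthV V U P Q) :
    PthV (shr t '' V) (shr t '' U) (shr t P) (shr t Q) := by
  obtain ⟨l, h1, h2, rfl⟩ := h
  exact ⟨l.map (shr t), h1.map t, h2.map t, lastp_map t P l⟩

theorem vin_of {V : Set Pt} : ∀ {P : Pt} {l : List Pt}, (∀ X ∈ P :: l, X ∈ V) → VIn V P l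
  | P, [], h => h P List.mem_cons_self
  | P, Q :: l, h => ⟨h P List.mem_cons_self, vin_of (P := Q) (l := l) fun X hX =>
      h X (List.mem_cons_of_mem _ hX)⟩

theorem disj_map (t : ℝ) {A B : Set Pt} (h : Disjoint A B) : Disjoint (shr t '' A) (shr t '' B) :=
  Set.disjoint_image_of_injective (shr_inj t) h

/-- **T2**: two closed polygonal curves do not cross exactly once -/
theorem T2 {A B : Set Pt} {p1 p2 q1 q2 : Pt} (hA : Pth A p1 p2) (hB : Pth B q1 q2)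
    (hAB : Disjoint A B) (hA' : Disjoint A (segment ℝ q1 q2))
    (hB' : Disjoint B (segment ℝ p1 p2)) : Disjoint (segment ℝ p1 p2) (segment ℝ q1 q2) := by
  obtain ⟨l, hl, hl2⟩ := hA
  obtain ⟨m, hm, hm2⟩ := hB
  have hfin : {X : Pt | X ∈ p1 :: l ∨ X ∈ q1 :: m}.Finite :=
    ((p1 :: l).finite_toSet).union ((q1 :: m).finite_toSet)
  obtain ⟨t, ht⟩ := exists_gen hfin
  have hA1 : PthV {X : Pt | X ∈ p1 :: l ∨ X ∈ q1 :: m} A p1 p2 :=
    ⟨l, hl, vin_of fun X hX => Or.inl hX, hl2⟩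
  have hB1 : PthV {X : Pt | X ∈ p1 :: l ∨ X ∈ q1 :: m} B q1 q2 :=
    ⟨m, hm, vin_of fun X hX => Or.inr hX, hm2⟩
  have h := T2gen ht (hA1.map t) (hB1.map t) (disj_map t hAB)
    (by rw [← shr_seg]; exact disj_map t hA') (by rw [← shr_seg]; exact disj_map t hB')
  rw [← shr_seg, ← shr_seg] at h
  exact (Set.disjoint_image_iff (shr_inj t)).1 h

/-- **T1**: there is no drawing of `K_{3,3}` in which independent edges are disjoint -/
theorem T1 (a c : Fin 3 → Pt) (U : Fin 3 → Fin 3 → Set Pt) (hU : ∀ i j, Pth (U i j) (a i) (c j))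
    (hd : ∀ i j i' j', i ≠ i' → j ≠ j' → Disjoint (U i j) (U i' j')) : False := by
  choose l hl hlc using hU
  have hfin : {X : Pt | ∃ i j, X ∈ a i :: l i j}.Finite := by
    have : {X : Pt | ∃ i j, X ∈ a i :: l i j} = ⋃ i, ⋃ j, {X | X ∈ a i :: l i j} := by
      ext X
      simp
    rw [this]
    exact Set.finite_iUnion fun i => Set.finite_iUnion fun j => (a i :: l i j).finite_toSet
  obtain ⟨t, ht⟩ := exists_gen hfin
  refine T1gen ht (fun i => shr t (a i)) (fun j => shr t (c j)) (fun i j => shr t '' U i j) ?_ ?_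
  · intro i j
    exact PthV.map t ⟨l i j, hl i j, vin_of fun X hX => ⟨i, j, hX⟩, hlc i j⟩
  · intro i j i' j' h1 h2
    exact disj_map t (hd i j i' j' h1 h2)

end Pool.Agent.SG57
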